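import Mathlib

/-!
# 1/w + 1/x + 1/y + 1/z + 1/(wxyz) = 0 : description by divisors
-/

namespace Pool.Agent.N938.Mo

/-- `(w, x, y, z)` is a solution of the equation in nonzero integers. -/
def IsSolution (w x y z : ℤ) : Prop :=
  w ≠ 0 ∧ x ≠ 0 ∧ y ≠ 0 ∧ z ≠ 0 ∧
    (1 / w + 1 / x + 1 / y + 1 / z + 1 / (w * x * y * z) : ℚ) = 0

lemma sol_iff (w x y z : ℤ) : IsSolution w x y z ↔
    w ≠ 0 ∧ x ≠ 0 ∧ y ≠ 0 ∧ z ≠ 0 ∧ w * x * (y + z) + (w + x) * (y * z) = -1 := by
  unfold IsSolution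
  constructor
  · rintro ⟨h1, h2, h3, h4, h⟩
    refine ⟨h1, h2, h3, h4, ?_⟩
    have h1' : (w : ℚ) ≠ 0 := by exact_mod_cast h1
    have h2' : (x : ℚ) ≠ 0 := by exact_mod_cast h2
    have h3' : (y : ℚ) ≠ 0 := by exact_mod_cast h3
    have h4' : (z : ℚ) ≠ 0 := by exact_mod_cast h4
    field_simp at h
    have h5 : ((w * x * (y + z) + (w + x) * (y * z) : ℤ) : ℚ) = ((-1 : ℤ) : ℚ) := by
      push_cast
      linarith
    exact_mod_cast h5
  · rintro ⟨h1, h2, h3, h4, h⟩
    refine ⟨h1, h2, h3, h4, ?_⟩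
    have h1' : (w : ℚ) ≠ 0 := by exact_mod_cast h1
    have h2' : (x : ℚ) ≠ 0 := by exact_mod_cast h2
    have h3' : (y : ℚ) ≠ 0 := by exact_mod_cast h3
    have h4' : (z : ℚ) ≠ 0 := by exact_mod_cast h4
    have h5 : ((w * x * (y + z) + (w + x) * (y * z) : ℤ) : ℚ) = ((-1 : ℤ) : ℚ) := by
      exact_mod_cast h
    push_cast at h5
    field_simp
    linarith

/-- The parameters `(w, x, D, E)`: coprime nonzero `w, x` with `w + x ≠ 0`, a factorisation
`D E = (w x)² - (w + x)` with `D ≡ w x` modulo `w + x`, and `D, E ≠ w x`. -/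
def Param : Set (ℤ × ℤ × ℤ × ℤ) :=
  {p | p.1 ≠ 0 ∧ p.2.1 ≠ 0 ∧ p.1 + p.2.1 ≠ 0 ∧ IsCoprime p.1 p.2.1 ∧
    p.2.2.1 * p.2.2.2 = (p.1 * p.2.1) ^ 2 - (p.1 + p.2.1) ∧
    (p.1 + p.2.1) ∣ p.2.2.1 - p.1 * p.2.1 ∧ p.2.2.1 ≠ p.1 * p.2.1 ∧ p.2.2.2 ≠ p.1 * p.2.1}

/-- `(w, x, D, E)` is sent to `(w, x, (D - w x) / (w + x), (E - w x) / (w + x))`. -/
def toSol (p : ℤ × ℤ × ℤ × ℤ) : ℤ × ℤ × ℤ × ℤ :=
  (p.1, p.2.1, (p.2.2.1 - p.1 * p.2.1) / (p.1 + p.2.1), (p.2.2.2 - p.1 * p.2.1) / (p.1 + p.2.1))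

/-- The solutions as a set of quadruples. -/
def Sols : Set (ℤ × ℤ × ℤ × ℤ) := {q | IsSolution q.1 q.2.1 q.2.2.1 q.2.2.2}

lemma dvd_second {w x D E : ℤ} (hc : IsCoprime w x) (h : D * E = (w * x) ^ 2 - (w + x))
    (hD : (w + x) ∣ D - w * x) : (w + x) ∣ E - w * x := by
  have hc1 : IsCoprime (w + x) (w * x) := by
    have h1 : IsCoprime (w + x) w := by
      have : IsCoprime (x + w * 1) w := hc.symm.add_mul_left_left 1
      simpa [add_comm] using this
    have h2 : IsCoprime (w + x) x := by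
      have : IsCoprime (w + x * 1) x := hc.add_mul_left_left 1
      simpa using this
    exact h1.mul_right h2
  have h3 : (w + x) ∣ w * x * (E - w * x) := by
    obtain ⟨k, hk⟩ := hD
    refine ⟨-1 - k * E, ?_⟩
    have : D = w * x + (w + x) * k := by linarith
    subst this
    linarith [h]
  exact hc1.dvd_of_dvd_mul_left h3

lemma bij : Set.BijOn toSol Param {q ∈ Sols | q.1 + q.2.1 ≠ 0} := by
  refine ⟨?_, ?_, ?_⟩
  · rintro ⟨w, x, D, E⟩ ⟨hw, hx, hs, hc, h, hd, hD, hE⟩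
    simp only at hw hx hs hc h hd hD hE
    have hd2 := dvd_second hc h hd
    obtain ⟨y, hy⟩ := hd
    obtain ⟨z, hz⟩ := hd2
    have hy' : (D - w * x) / (w + x) = y := by rw [hy]; exact Int.mul_ediv_cancel_left _ hs
    have hz' : (E - w * x) / (w + x) = z := by rw [hz]; exact Int.mul_ediv_cancel_left _ hs
    simp only [toSol, hy', hz', Sols, Set.mem_setOf_eq]
    refine ⟨?_, hs⟩
    rw [sol_iff]
    refine ⟨hw, hx, ?_, ?_, ?_⟩
    · rintro rfl; apply hD; linarith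
    · rintro rfl; apply hE; linarith
    · have hD' : D = w * x + (w + x) * y := by linarith
      have hE' : E = w * x + (w + x) * z := by linarith
      subst hD' hE'
      have : (w + x) * (w * x * (y + z) + (w + x) * (y * z)) = (w + x) * (-1) := by
        linear_combination h
      exact mul_left_cancel₀ hs this
  · rintro ⟨w, x, D, E⟩ ⟨hw, hx, hs, hc, h, hd, hD, hE⟩ ⟨w', x', D', E'⟩
      ⟨hw', hx', hs', hc', h', hd', hD', hE'⟩ heq
    simp only at hw hx hs hc h hd hD hE hw' hx' hs' hc' h' hd' hD' hE'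
    have hd2 := dvd_second hc h hd
    have hd2' := dvd_second hc' h' hd'
    simp only [toSol, Prod.mk.injEq] at heq
    obtain ⟨rfl, rfl, e1, e2⟩ := heq
    obtain ⟨y, hy⟩ := hd
    obtain ⟨z, hz⟩ := hd2
    obtain ⟨y', hy'⟩ := hd'
    obtain ⟨z', hz'⟩ := hd2'
    rw [hy, hy', Int.mul_ediv_cancel_left _ hs, Int.mul_ediv_cancel_left _ hs] at e1
    rw [hz, hz', Int.mul_ediv_cancel_left _ hs, Int.mul_ediv_cancel_left _ hs] at e2
    subst e1 e2
    have : D = D' := by linarith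
    have : E = E' := by linarith
    simp_all
  · rintro ⟨w, x, y, z⟩ ⟨hq, hs⟩
    simp only [Sols, Set.mem_setOf_eq] at hq hs
    rw [sol_iff] at hq
    obtain ⟨hw, hx, hy, hz, h⟩ := hq
    refine ⟨(w, x, w * x + (w + x) * y, w * x + (w + x) * z), ?_, ?_⟩
    · refine ⟨hw, hx, hs, ?_, ?_, ?_, ?_, ?_⟩
      · refine ⟨-(x * (y + z) + y * z), -(y * z), ?_⟩
        simp only
        linear_combination -h
      · simp only
        linear_combination (w + x) * h
      · simp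
      · simp only
        intro h'
        have : (w + x) * y = 0 := by linarith
        rcases mul_eq_zero.mp this with h1 | h1
        · exact hs h1
        · exact hy h1
      · simp only
        intro h'
        have : (w + x) * z = 0 := by linarith
        rcases mul_eq_zero.mp this with h1 | h1
        · exact hs h1
        · exact hz h1
    · simp only [toSol, Prod.mk.injEq, true_and]
      constructor
      · rw [show w * x + (w + x) * y - w * x = (w + x) * y by ring]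
        exact Int.mul_ediv_cancel_left _ hs
      · rw [show w * x + (w + x) * z - w * x = (w + x) * z by ring]
        exact Int.mul_ediv_cancel_left _ hs

/-- The solutions with `w + x = 0`. -/
lemma zero_sum (w x y z : ℤ) : (IsSolution w x y z ∧ w + x = 0) ↔
    ((w = 1 ∧ x = -1) ∨ (w = -1 ∧ x = 1)) ∧ y + z = 1 ∧ y ≠ 0 ∧ z ≠ 0 := by
  rw [sol_iff]
  constructor
  · rintro ⟨⟨hw, hx, hy, hz, h⟩, hs⟩
    have hx' : x = -w := by linarith
    subst hx'
    have h1 : w * (w * (y + z)) = 1 := by linarith [h, show w * -w * (y + z) + (w + -w) * (y * z) = -(w * (w * (y + z))) by ring]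
    rcases Int.eq_one_or_neg_one_of_mul_eq_one h1 with h2 | h2
    · subst h2
      exact ⟨Or.inl ⟨rfl, rfl⟩, by linarith, hy, hz⟩
    · subst h2
      exact ⟨Or.inr ⟨rfl, rfl⟩, by linarith, hy, hz⟩
  · rintro ⟨h | h, hs, hy, hz⟩
    · obtain ⟨rfl, rfl⟩ := h
      refine ⟨⟨by norm_num, by norm_num, hy, hz, ?_⟩, by norm_num⟩
      linarith
    · obtain ⟨rfl, rfl⟩ := h
      refine ⟨⟨by norm_num, by norm_num, hy, hz, ?_⟩, by norm_num⟩
      linarith

/-- In increasing order of the absolute values the second entry is at most `3 |w|`. -/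
lemma second_le (w x y z : ℤ) (h : IsSolution w x y z) (h1 : |w| ≤ |x|) (h2 : |x| ≤ |y|)
    (h3 : |y| ≤ |z|) : |x| ≤ 3 * |w| := by
  rw [sol_iff] at h
  obtain ⟨hw, hx, hy, hz, h⟩ := h
  have hw1 : 1 ≤ |w| := Int.one_le_abs hw
  have hx1 : 1 ≤ |x| := Int.one_le_abs hx
  have hy1 : 1 ≤ |y| := Int.one_le_abs hy
  have hz1 : 1 ≤ |z| := Int.one_le_abs hz
  have e1 : x * (y * z) = -1 - w * (x * y) - w * (x * z) - w * (y * z) := by linear_combination h
  have e2 : |x| * (|y| * |z|) ≤ 1 + |w| * (|x| * |y|) + |w| * (|x| * |z|) + |w| * (|y| * |z|) := by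
    rw [← abs_mul, ← abs_mul, e1]
    have := abs_sub (-1 - w * (x * y) - w * (x * z)) (w * (y * z))
    have := abs_sub (-1 - w * (x * y)) (w * (x * z))
    have := abs_sub (-1 : ℤ) (w * (x * y))
    simp only [abs_mul, abs_neg, abs_one] at *
    linarith
  have e3 : |x| * |y| ≤ |y| * |z| := by nlinarith
  have e4 : |x| * |z| ≤ |y| * |z| := by nlinarith
  have e5 : |x| * (|y| * |z|) ≤ 1 + 3 * |w| * (|y| * |z|) := by nlinarith
  by_contra hcon
  push Not at hcon
  have e6 : 3 * |w| + 1 ≤ |x| := hcon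
  have e7 : (3 * |w| + 1) * (|y| * |z|) ≤ |x| * (|y| * |z|) :=
    mul_le_mul_of_nonneg_right e6 (by positivity)
  have e8 : |y| * |z| ≤ 1 := by nlinarith
  have e9 : 4 ≤ |y| := by linarith
  nlinarith

end Pool.Agent.N938.Mo
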