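import Pool.Agent.N938.Mo.Pell

/-!
# The blocks of solutions
-/

namespace Pool.Agent.N938.Mo

lemma esymm_three_list (a b c d : ℤ) :
    (([a, b, c, d] : List ℤ) : Multiset ℤ).esymm 3 = b * c * d + a * c * d + a * b * d + a * b * c := by
  have e0 : ∀ s : Multiset ℤ, s.esymm 0 = 1 := fun s => by simp [Multiset.esymm]
  have ec : ∀ (a : ℤ) (s : Multiset ℤ) (k : ℕ),
      (a ::ₘ s).esymm (k + 1) = s.esymm (k + 1) + a * s.esymm k := fun a s k => by
    simp [Multiset.esymm, Multiset.powersetCard_cons, Multiset.map_map, Multiset.sum_map_mul_left]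
  have ez : ∀ k : ℕ, (0 : Multiset ℤ).esymm (k + 1) = 0 := fun k => by
    simp [Multiset.esymm, Multiset.powersetCard_zero_right]
  have h : (([a, b, c, d] : List ℤ) : Multiset ℤ) = a ::ₘ b ::ₘ c ::ₘ d ::ₘ 0 := rfl
  rw [h]
  simp only [ec, e0, ez]
  ring

lemma perm_sol {w x y z a b c d : ℤ} (h : List.Perm [w, x, y, z] [a, b, c, d])
    (hs : IsSolution a b c d) : IsSolution w x y z := by
  rw [sol_iff] at hs ⊢
  obtain ⟨ha, hb, hc, hd, he⟩ := hs
  have h0 : (0 : ℤ) ∉ [w, x, y, z] := by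
    rw [h.mem_iff]
    simp only [List.mem_cons, List.not_mem_nil, or_false, not_or]
    exact ⟨ha.symm, hb.symm, hc.symm, hd.symm⟩
  simp only [List.mem_cons, List.not_mem_nil, or_false, not_or] at h0
  refine ⟨Ne.symm h0.1, Ne.symm h0.2.1, Ne.symm h0.2.2.1, Ne.symm h0.2.2.2, ?_⟩
  have h1 : (([w, x, y, z] : List ℤ) : Multiset ℤ).esymm 3 =
      (([a, b, c, d] : List ℤ) : Multiset ℤ).esymm 3 := by
    rw [Multiset.coe_eq_coe.mpr h]
  rw [esymm_three_list, esymm_three_list] at h1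
  linarith

lemma exists_sorted (w x y z : ℤ) : ∃ a b c d : ℤ, List.Perm [w, x, y, z] [a, b, c, d] ∧
    |a| ≤ |b| ∧ |b| ≤ |c| ∧ |c| ≤ |d| := by
  have hp := List.perm_insertionSort (fun a b : ℤ => |a| ≤ |b|) [w, x, y, z]
  have hl : (List.insertionSort (fun a b : ℤ => |a| ≤ |b|) [w, x, y, z]).length = 4 := by
    rw [hp.length_eq]; rfl
  have hs := List.pairwise_insertionSort (fun a b : ℤ => |a| ≤ |b|) [w, x, y, z]
  revert hp hl hs
  generalize List.insertionSort (fun a b : ℤ => |a| ≤ |b|) [w, x, y, z] = l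
  intro hp hl hs
  match l, hl with
  | [a, b, c, d], _ =>
    refine ⟨a, b, c, d, hp.symm, ?_⟩
    simp only [List.pairwise_cons] at hs
    refine ⟨hs.1 b (by simp), hs.2.1 c (by simp), hs.2.2.1 d (by simp)⟩

/-- The finitely many solutions `(k, x, y, z)` with `|k| ≤ |x| ≤ 3 |k|`, `k + x ≠ 0`, computed from the
factorisations `D E = (k x)² - (k + x)` with `D ≡ k x` modulo `k + x`. -/
noncomputable def block (k : ℤ) : Finset (ℤ × ℤ × ℤ × ℤ) :=
  ((Finset.Icc (-(3 * (k.natAbs : ℤ))) (3 * (k.natAbs : ℤ))).filter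
      (fun x => k.natAbs ≤ x.natAbs ∧ k + x ≠ 0 ∧ Int.gcd k x = 1)).biUnion
    (fun x => (((k * x) ^ 2 - (k + x)).divisorsAntidiag.filter
        (fun D => (k + x) ∣ D.1 - k * x ∧ D.1 ≠ k * x ∧ D.2 ≠ k * x)).image
      (fun D => (k, x, (D.1 - k * x) / (k + x), (D.2 - k * x) / (k + x))))

lemma ne_zero_of {k x : ℤ} (hk : k ≠ 0) (hx : x ≠ 0) (hs : k + x ≠ 0) :
    (k * x) ^ 2 - (k + x) ≠ 0 := by
  intro h
  have hk1 : 1 ≤ |k| := Int.one_le_abs hk
  have hx1 : 1 ≤ |x| := Int.one_le_abs hx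
  have h1 : (|k| * |x|) ^ 2 ≤ |k| + |x| := by
    calc (|k| * |x|) ^ 2 = (k * x) ^ 2 := by rw [← abs_mul, sq_abs]
      _ = k + x := by linarith
      _ ≤ |k + x| := le_abs_self _
      _ ≤ _ := abs_add_le _ _
  have h2 : |k| + |x| ≤ |k| * |x| + 1 := by nlinarith
  have h3 : |k| * |x| ≤ 1 := by nlinarith
  have h4 : |k| = 1 := by nlinarith
  have h5 : |x| = 1 := by nlinarith
  rcases (abs_eq (by norm_num : (0 : ℤ) ≤ 1)).mp h4 with rfl | rfl <;>
    rcases (abs_eq (by norm_num : (0 : ℤ) ≤ 1)).mp h5 with rfl | rfl <;> norm_num at h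

lemma mem_block {k x y z : ℤ} (hk : k ≠ 0) : (k, x, y, z) ∈ block k ↔
    IsSolution k x y z ∧ k + x ≠ 0 ∧ |k| ≤ |x| ∧ |x| ≤ 3 * |k| := by
  constructor
  · intro h
    simp only [block, Finset.mem_biUnion, Finset.mem_filter, Finset.mem_Icc, Finset.mem_image,
      Int.mem_divisorsAntidiag, Prod.mk.injEq, Prod.exists] at h
    obtain ⟨x', ⟨⟨h1, h2⟩, h3, h4, h5⟩, D, E, ⟨⟨h6, -⟩, h7, h8, h9⟩, -, rfl, h10, h11⟩ := h
    rw [Int.natCast_natAbs] at h1 h2
    zify at h3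
    have hx : x' ≠ 0 := by
      rintro rfl
      rw [abs_zero] at h3
      exact hk (abs_nonpos_iff.mp h3)
    have hp : (k, x', D, E) ∈ Param := ⟨hk, hx, h4, Int.isCoprime_iff_gcd_eq_one.mpr h5, h6, h7, h8, h9⟩
    have hq := bij.mapsTo hp
    simp only [toSol, h10, h11, Sols] at hq
    exact ⟨hq.1, h4, h3, abs_le.mpr ⟨h1, h2⟩⟩
  · rintro ⟨h, hs, h1, h2⟩
    obtain ⟨⟨k', x', D, E⟩, hp, hq⟩ := bij.surjOn (show (k, x, y, z) ∈ {q ∈ Sols | q.1 + q.2.1 ≠ 0} from ⟨h, hs⟩)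
    simp only [toSol, Prod.mk.injEq] at hq
    obtain ⟨rfl, rfl, e1, e2⟩ := hq
    obtain ⟨g1, g2, g3, g4, g5, g6, g7, g8⟩ := hp
    simp only at g1 g2 g3 g4 g5 g6 g7 g8
    simp only [block, Finset.mem_biUnion, Finset.mem_filter, Finset.mem_Icc, Finset.mem_image,
      Int.mem_divisorsAntidiag, Prod.mk.injEq, Prod.exists]
    have h1' : k'.natAbs ≤ x'.natAbs := by zify; exact h1
    refine ⟨x', ⟨?_, h1', g3, Int.isCoprime_iff_gcd_eq_one.mp g4⟩, D, E,
      ⟨⟨g5, ne_zero_of g1 g2 g3⟩, g6, g7, g8⟩, trivial, rfl, e1, e2⟩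
    rw [Int.natCast_natAbs]
    exact abs_le.mp h2

/-- The complete description. -/
lemma description (w x y z : ℤ) : IsSolution w x y z ↔
    (∃ t : ℤ, t ≠ 0 ∧ t ≠ 1 ∧ List.Perm [w, x, y, z] [1, -1, t, 1 - t]) ∨
    ∃ k : ℤ, k ≠ 0 ∧ ∃ q ∈ block k, List.Perm [w, x, y, z] [q.1, q.2.1, q.2.2.1, q.2.2.2] := by
  constructor
  · intro h
    obtain ⟨a, b, c, d, hp, h1, h2, h3⟩ := exists_sorted w x y z
    have hs := perm_sol hp.symm h
    by_cases h0 : a + b = 0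
    · left
      obtain ⟨h4, h5, h6, h7⟩ := (zero_sum a b c d).mp ⟨hs, h0⟩
      refine ⟨c, h6, ?_, ?_⟩
      · rintro rfl
        apply h7
        linarith
      · have : d = 1 - c := by linarith
        subst this
        rcases h4 with ⟨rfl, rfl⟩ | ⟨rfl, rfl⟩
        · exact hp
        · exact hp.trans (List.Perm.swap _ _ _)
    · right
      have ha : a ≠ 0 := ((sol_iff _ _ _ _).mp hs).1
      exact ⟨a, ha, (a, b, c, d), (mem_block ha).mpr ⟨hs, h0, h1, second_le a b c d hs h1 h2 h3⟩, hp⟩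
  · rintro (⟨t, h0, h1, h⟩ | ⟨k, hk, q, hq, h⟩)
    · apply perm_sol h
      exact ((zero_sum 1 (-1) t (1 - t)).mpr ⟨Or.inl ⟨rfl, rfl⟩, by ring, h0, by
        intro h2; apply h1; linarith⟩).1
    · obtain ⟨k', x', y', z'⟩ := q
      have hk' : k' = k := by
        simp only [block, Finset.mem_biUnion, Finset.mem_image, Prod.mk.injEq] at hq
        obtain ⟨_, _, _, _, h1, _⟩ := hq
        exact h1.symm
      subst hk'
      exact perm_sol h ((mem_block hk).mp hq).1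

end Pool.Agent.N938.Mo
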