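import Pool.Agent.N938.Mo.Bij

/-!
# The solutions with given sums `w + x = a`, `y + z = b`
-/

namespace Pool.Agent.N938.Mo

/-- The polynomial form of the equation; entries equal to `0` are allowed here. -/
def Poly (w x y z : ℤ) : Prop := w * x * (y + z) + (w + x) * (y * z) = -1

/-- The quadruples with an entry `0` that satisfy the polynomial equation. -/
def Degenerate (w x y z : ℤ) : Prop :=
  List.Perm [w, x, y, z] [0, -1, 1, 1] ∨ List.Perm [w, x, y, z] [0, -1, -1, -1]

lemma prod_units {x y z : ℤ} (h : x * y * z = -1) : (x = 1 ∨ x = -1) ∧ (y = 1 ∨ y = -1) ∧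
    (z = 1 ∨ z = -1) := by
  refine ⟨?_, ?_, ?_⟩
  · have : x * (-(y * z)) = 1 := by linarith [mul_assoc x y z]
    exact Int.eq_one_or_neg_one_of_mul_eq_one this
  · have : y * (-(x * z)) = 1 := by linear_combination -h
    exact Int.eq_one_or_neg_one_of_mul_eq_one this
  · have : z * (-(x * y)) = 1 := by linear_combination -h
    exact Int.eq_one_or_neg_one_of_mul_eq_one this

lemma poly_iff (w x y z : ℤ) : Poly w x y z ↔ IsSolution w x y z ∨ Degenerate w x y z := by
  rw [sol_iff]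
  unfold Poly Degenerate
  constructor
  · intro h
    by_cases hw : w = 0
    · right
      subst hw
      have h1 : x * y * z = -1 := by linarith
      obtain ⟨h2 | h2, h3 | h3, h4 | h4⟩ := prod_units h1 <;> subst h2 h3 h4 <;>
        first | (exfalso; revert h1; decide) | decide
    by_cases hx : x = 0
    · right
      subst hx
      have h1 : w * y * z = -1 := by linarith
      obtain ⟨h2 | h2, h3 | h3, h4 | h4⟩ := prod_units h1 <;> subst h2 h3 h4 <;>
        first | (exfalso; revert h1; decide) | decide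
    by_cases hy : y = 0
    · right
      subst hy
      have h1 : w * x * z = -1 := by linarith
      obtain ⟨h2 | h2, h3 | h3, h4 | h4⟩ := prod_units h1 <;> subst h2 h3 h4 <;>
        first | (exfalso; revert h1; decide) | decide
    by_cases hz : z = 0
    · right
      subst hz
      have h1 : w * x * y = -1 := by linarith
      obtain ⟨h2 | h2, h3 | h3, h4 | h4⟩ := prod_units h1 <;> subst h2 h3 h4 <;>
        first | (exfalso; revert h1; decide) | decide
    exact Or.inl ⟨hw, hx, hy, hz, h⟩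
  · rintro (h | h | h)
    · exact h.2.2.2.2
    all_goals
      have key : ∀ l : List ℤ, ∀ m : List ℤ, List.Perm l m →
          (l : Multiset ℤ).esymm 3 = (m : Multiset ℤ).esymm 3 := by
        intro l m hlm
        rw [Multiset.coe_eq_coe.mpr hlm]
      have e0 : ∀ s : Multiset ℤ, s.esymm 0 = 1 := fun s => by simp [Multiset.esymm]
      have ec : ∀ (a : ℤ) (s : Multiset ℤ) (k : ℕ),
          (a ::ₘ s).esymm (k + 1) = s.esymm (k + 1) + a * s.esymm k := fun a s k => by
        simp [Multiset.esymm, Multiset.powersetCard_cons, Multiset.map_map, Multiset.sum_map_mul_left]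
      have ez : ∀ k : ℕ, (0 : Multiset ℤ).esymm (k + 1) = 0 := fun k => by
        simp [Multiset.esymm, Multiset.powersetCard_zero_right]
      have hl : ∀ a b c d : ℤ, (([a, b, c, d] : List ℤ) : Multiset ℤ) = a ::ₘ b ::ₘ c ::ₘ d ::ₘ 0 :=
        fun a b c d => rfl
      have h2 := key _ _ h
      rw [hl, hl] at h2
      simp only [ec, e0, ez] at h2
      linarith

/-- The pairs of differences `(w - x, y - z)` of the quadruples with `w + x = a`, `y + z = b`. -/
def Diff (a b : ℤ) : Set (ℤ × ℤ) :=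
  {p | ∃ w x y z : ℤ, Poly w x y z ∧ w + x = a ∧ y + z = b ∧ w - x = p.1 ∧ y - z = p.2}

lemma mem_diff (a b : ℤ) (p : ℤ × ℤ) : p ∈ Diff a b ↔
    b * p.1 ^ 2 + a * p.2 ^ 2 = a * b * (a + b) + 4 ∧ (2 : ℤ) ∣ p.1 - a ∧ (2 : ℤ) ∣ p.2 - b := by
  obtain ⟨u, v⟩ := p
  constructor
  · rintro ⟨w, x, y, z, h, rfl, rfl, h3, h4⟩
    simp only at h3 h4
    subst h3 h4
    unfold Poly at h
    refine ⟨?_, ⟨-x, by simp only; ring⟩, ⟨-z, by simp only; ring⟩⟩
    simp only
    linear_combination (-4) * h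
  · rintro ⟨h, ⟨m, hm⟩, ⟨n, hn⟩⟩
    simp only at h hm hn
    refine ⟨a + m, -m, b + n, -n, ?_, by ring, by ring, by simp only; linarith, by simp only; linarith⟩
    unfold Poly
    have hu : u = a + 2 * m := by linarith
    have hv : v = b + 2 * n := by linarith
    subst hu hv
    have : (4 : ℤ) * ((a + m) * -m * (b + n + -n) + (a + m + -m) * ((b + n) * -n)) = 4 * (-1) := by
      linear_combination -h
    linarith

/-- The Pell automorphism attached to `T² + a b U² = 1`. -/
def pell (a b T U : ℤ) (h : T ^ 2 + a * b * U ^ 2 = 1) : Equiv.Perm (ℤ × ℤ) where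
  toFun p := (T * p.1 + a * U * p.2, T * p.2 - b * U * p.1)
  invFun p := (T * p.1 - a * U * p.2, T * p.2 + b * U * p.1)
  left_inv p := by
    obtain ⟨u, v⟩ := p
    simp only [Prod.mk.injEq]
    constructor
    · linear_combination u * h
    · linear_combination v * h
  right_inv p := by
    obtain ⟨u, v⟩ := p
    simp only [Prod.mk.injEq]
    constructor
    · linear_combination u * h
    · linear_combination v * h

lemma parity_aux (a b T U : ℤ) (h : T ^ 2 + a * b * U ^ 2 = 1) :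
    (2 : ℤ) ∣ a * (T + b * U - 1) ∧ (2 : ℤ) ∣ b * (T - a * U - 1) := by
  have key : ∀ a b T U : ZMod 2, T ^ 2 + a * b * U ^ 2 = 1 →
      a * (T + b * U - 1) = 0 ∧ b * (T - a * U - 1) = 0 := by decide
  have h2 := key a b T U (by exact_mod_cast congrArg (Int.cast : ℤ → ZMod 2) h)
  constructor
  · have h3 := (ZMod.intCast_zmod_eq_zero_iff_dvd (a * (T + b * U - 1)) 2).mp
      (by push_cast; exact h2.1)
    exact_mod_cast h3
  · have h3 := (ZMod.intCast_zmod_eq_zero_iff_dvd (b * (T - a * U - 1)) 2).mp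
      (by push_cast; exact h2.2)
    exact_mod_cast h3

lemma pell_mem {a b T U : ℤ} (h : T ^ 2 + a * b * U ^ 2 = 1) {p : ℤ × ℤ} (hp : p ∈ Diff a b) :
    pell a b T U h p ∈ Diff a b := by
  rw [mem_diff] at hp ⊢
  obtain ⟨h1, ⟨m, hm⟩, ⟨n, hn⟩⟩ := hp
  obtain ⟨u, v⟩ := p
  simp only at h1 hm hn
  have hu : u = a + 2 * m := by linarith
  have hv : v = b + 2 * n := by linarith
  obtain ⟨⟨k, hk⟩, ⟨l, hl⟩⟩ := parity_aux a b T U h
  refine ⟨?_, ?_, ?_⟩
  · show b * (T * u + a * U * v) ^ 2 + a * (T * v - b * U * u) ^ 2 = _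
    linear_combination h1 + (b * u ^ 2 + a * v ^ 2) * h
  · refine ⟨k + T * m + a * U * n, ?_⟩
    show T * u + a * U * v - a = _
    subst hu hv
    linear_combination hk
  · refine ⟨l + T * n - b * U * m, ?_⟩
    show T * v - b * U * u - b = _
    subst hu hv
    linear_combination hl

lemma pell_symm_mem {a b T U : ℤ} (h : T ^ 2 + a * b * U ^ 2 = 1) {p : ℤ × ℤ} (hp : p ∈ Diff a b) :
    (pell a b T U h).symm p ∈ Diff a b := by
  have h' : T ^ 2 + a * b * (-U) ^ 2 = 1 := by linarith [h, neg_sq U]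
  have h2 := pell_mem h' hp
  have : pell a b T (-U) h' p = (pell a b T U h).symm p := by
    obtain ⟨u, v⟩ := p
    show (T * u + a * (-U) * v, T * v - b * (-U) * u) = (T * u - a * U * v, T * v + b * U * u)
    simp only [Prod.mk.injEq]
    constructor <;> ring
  rwa [this] at h2

lemma pell_zpow_mem {a b T U : ℤ} (h : T ^ 2 + a * b * U ^ 2 = 1) (k : ℤ) :
    ∀ {p : ℤ × ℤ}, p ∈ Diff a b → (pell a b T U h ^ k) p ∈ Diff a b := by
  induction k using Int.induction_on with
  | zero => intro p hp; simpa using hp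
  | succ n ih =>
    intro p hp
    rw [zpow_add_one]
    exact ih (pell_mem h hp)
  | pred n ih =>
    intro p hp
    rw [zpow_sub_one]
    exact ih (pell_symm_mem h hp)

/-- The reduced elements: `2 (T - 1) u² ≤ |a| U² |a b (a + b) + 4|`. -/
def Small (a b T U : ℤ) : Set (ℤ × ℤ) :=
  {p ∈ Diff a b | 2 * (T - 1) * p.1 ^ 2 ≤ |a| * U ^ 2 * |a * b * (a + b) + 4|}

lemma descent {a b T U : ℤ} (h : T ^ 2 + a * b * U ^ 2 = 1) (hT : 1 < T) {p : ℤ × ℤ}
    (hp : p ∈ Diff a b) (hs : p ∉ Small a b T U) :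
    |(pell a b T U h p).1| < |p.1| ∨ |((pell a b T U h).symm p).1| < |p.1| := by
  by_contra hcon
  push Not at hcon
  obtain ⟨h1, h2⟩ := hcon
  apply hs
  refine ⟨hp, ?_⟩
  rw [mem_diff] at hp
  obtain ⟨h0, -, -⟩ := hp
  obtain ⟨u, v⟩ := p
  have h1' : |u| ≤ |T * u + a * U * v| := h1
  have h2' : |u| ≤ |T * u - a * U * v| := h2
  simp only at h0 ⊢
  set N := a * b * (a + b) + 4 with hN
  set Y := a * U * v with hY
  have hYY : Y ^ 2 = a * U ^ 2 * N + (T ^ 2 - 1) * u ^ 2 := by
    rw [hY, ← h0]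
    linear_combination (-u ^ 2) * h
  have h3 : |a * U ^ 2 * N| = |a| * U ^ 2 * |N| := by
    rw [abs_mul, abs_mul, abs_of_nonneg (sq_nonneg U)]
  rw [← h3]
  have h4 := sq_le_sq.mpr h1'
  have h5 := sq_le_sq.mpr h2'
  clear_value Y
  have h6 : 2 * (T - 1) * u ^ 2 ≤ a * U ^ 2 * N ∨ 2 * (T - 1) * u ^ 2 ≤ -(a * U ^ 2 * N) := by
    by_contra hc
    push Not at hc
    obtain ⟨c1, c2⟩ := hc
    have d1 : (T - 1) ^ 2 * u ^ 2 < Y ^ 2 := by rw [hYY]; linarith
    have d2 : Y ^ 2 < (T + 1) ^ 2 * u ^ 2 := by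
      rw [hYY]
      have : 0 ≤ u ^ 2 := sq_nonneg u
      nlinarith
    have e1 : |(T - 1) * u| < |Y| := by
      apply sq_lt_sq.mp
      linarith [show ((T - 1) * u) ^ 2 = (T - 1) ^ 2 * u ^ 2 by ring]
    have e2 : |Y| < |(T + 1) * u| := by
      apply sq_lt_sq.mp
      linarith [show ((T + 1) * u) ^ 2 = (T + 1) ^ 2 * u ^ 2 by ring]
    rw [abs_mul, abs_of_pos (by linarith : (0 : ℤ) < T - 1)] at e1
    rw [abs_mul, abs_of_pos (by linarith : (0 : ℤ) < T + 1)] at e2
    have hX : |T * u| = T * |u| := by rw [abs_mul, abs_of_pos (by linarith : (0 : ℤ) < T)]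
    have e3 : |T * u| - |u| < |Y| := by rw [hX]; linarith
    have e4 : |Y| < |T * u| + |u| := by rw [hX]; linarith
    clear h4 h5 c1 c2 d1 d2 hYY e1 e2 hX h3
    generalize T * u = X at *
    rcases abs_cases u with hu | hu <;> rcases abs_cases Y with hYc | hYc <;>
      rcases abs_cases X with hXc | hXc <;>
      rcases abs_cases (X + Y) with hA | hA <;> rcases abs_cases (X - Y) with hB | hB <;>
      linarith
  rcases h6 with h6 | h6
  · exact le_trans h6 (le_abs_self _)
  · exact le_trans h6 (neg_le_abs _)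

lemma diff_eq {a b T U : ℤ} (h : T ^ 2 + a * b * U ^ 2 = 1) (hT : 1 < T) :
    Diff a b = ⋃ k : ℤ, (fun p => (pell a b T U h ^ k) p) '' Small a b T U := by
  apply Set.Subset.antisymm
  · have key : ∀ n : ℕ, ∀ p ∈ Diff a b, p.1.natAbs ≤ n →
        ∃ k : ℤ, ∃ q ∈ Small a b T U, (pell a b T U h ^ k) q = p := by
      intro n
      induction n with
      | zero =>
        intro p hp hn
        by_cases hs : p ∈ Small a b T U
        · exact ⟨0, p, hs, by simp⟩
        · exfalso
          rcases descent h hT hp hs with h1 | h1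
          · have : |p.1| = 0 := by have : p.1 = 0 := by omega
                                   rw [this]; rfl
            rw [this] at h1
            exact absurd (abs_nonneg _) (not_le.mpr h1)
          · have : |p.1| = 0 := by have : p.1 = 0 := by omega
                                   rw [this]; rfl
            rw [this] at h1
            exact absurd (abs_nonneg _) (not_le.mpr h1)
      | succ n ih =>
        intro p hp hn
        by_cases hs : p ∈ Small a b T U
        · exact ⟨0, p, hs, by simp⟩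
        · rcases descent h hT hp hs with h1 | h1
          · have h3 : (pell a b T U h p).1.natAbs < p.1.natAbs := by zify; exact h1
            obtain ⟨k, q, hq, hk⟩ := ih _ (pell_mem h hp) (by omega)
            refine ⟨-1 + k, q, hq, ?_⟩
            rw [zpow_add, Equiv.Perm.mul_apply, hk, zpow_neg_one]
            exact Equiv.symm_apply_apply _ _
          · have h3 : ((pell a b T U h).symm p).1.natAbs < p.1.natAbs := by zify; exact h1
            obtain ⟨k, q, hq, hk⟩ := ih _ (pell_symm_mem h hp) (by omega)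
            refine ⟨1 + k, q, hq, ?_⟩
            rw [zpow_add, Equiv.Perm.mul_apply, hk, zpow_one]
            exact Equiv.apply_symm_apply _ _
    intro p hp
    obtain ⟨k, q, hq, hk⟩ := key _ p hp le_rfl
    exact Set.mem_iUnion.mpr ⟨k, q, hq, hk⟩
  · intro p hp
    obtain ⟨k, q, hq, rfl⟩ := Set.mem_iUnion.mp hp
    exact pell_zpow_mem h k hq.1

lemma finite_box {S : Set (ℤ × ℤ)} (K L : ℤ) (h : ∀ p ∈ S, |p.1| ≤ K ∧ |p.2| ≤ L) : S.Finite := by
  apply Set.Finite.subset (Set.Finite.prod (Set.finite_Icc (-K) K) (Set.finite_Icc (-L) L))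
  intro p hp
  obtain ⟨h1, h2⟩ := h p hp
  exact ⟨abs_le.mp h1, abs_le.mp h2⟩

lemma abs_le_sq' (u : ℤ) : |u| ≤ u ^ 2 := by
  rw [← sq_abs]
  rcases (abs_nonneg u).lt_or_eq with h | h
  · nlinarith
  · rw [← h]; norm_num

lemma small_finite {a b T U : ℤ} (ha : a ≠ 0) (hT : 1 < T) : (Small a b T U).Finite := by
  set K := |a| * U ^ 2 * |a * b * (a + b) + 4| with hK
  apply finite_box K (|a * b * (a + b) + 4| + |b| * K)
  rintro ⟨u, v⟩ ⟨hp, hs⟩
  rw [mem_diff] at hp
  obtain ⟨h0, -, -⟩ := hp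
  simp only at h0 hs ⊢
  have hu0 : 0 ≤ u ^ 2 := sq_nonneg u
  have hu : u ^ 2 ≤ K := by nlinarith
  refine ⟨le_trans (abs_le_sq' u) hu, ?_⟩
  have ha1 : 1 ≤ |a| := Int.one_le_abs ha
  have h1 : |a| * v ^ 2 ≤ |a * b * (a + b) + 4| + |b| * u ^ 2 := by
    have : a * v ^ 2 = (a * b * (a + b) + 4) - b * u ^ 2 := by linarith
    calc |a| * v ^ 2 = |a * v ^ 2| := by rw [abs_mul, abs_of_nonneg (sq_nonneg v)]
      _ = |(a * b * (a + b) + 4) - b * u ^ 2| := by rw [this]
      _ ≤ |a * b * (a + b) + 4| + |b * u ^ 2| := abs_sub _ _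
      _ = _ := by rw [abs_mul b, abs_of_nonneg hu0]
  have h2 : v ^ 2 ≤ |a| * v ^ 2 := by nlinarith [sq_nonneg v]
  have h3 : |b| * u ^ 2 ≤ |b| * K := mul_le_mul_of_nonneg_left hu (abs_nonneg b)
  linarith [abs_le_sq' v]

lemma N_ne (a b : ℤ) : a * b * (a + b) + 4 ≠ 0 := by
  intro h
  have ha : a ∣ 4 := ⟨-(b * (a + b)), by linarith [mul_assoc a b (a + b)]⟩
  have hb : b ∣ 4 := ⟨-(a * (a + b)), by linear_combination h⟩
  have ha1 := Int.le_of_dvd (by norm_num) ha
  have ha2 := Int.le_of_dvd (by norm_num) ((neg_dvd).mpr ha)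
  have hb1 := Int.le_of_dvd (by norm_num) hb
  have hb2 := Int.le_of_dvd (by norm_num) ((neg_dvd).mpr hb)
  have ha3 : -4 ≤ a := by linarith
  have hb3 : -4 ≤ b := by linarith
  interval_cases a <;> interval_cases b <;> omega

lemma finite_pos {a b : ℤ} (h : 0 < a * b) : (Diff a b).Finite := by
  apply finite_box (|a * b * (a + b) + 4|) (|a * b * (a + b) + 4|)
  rintro ⟨u, v⟩ hp
  rw [mem_diff] at hp
  obtain ⟨h0, -, -⟩ := hp
  simp only at h0 ⊢
  rw [← h0]
  have hu := abs_le_sq' u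
  have hv := abs_le_sq' v
  have hu0 := sq_nonneg u
  have hv0 := sq_nonneg v
  rcases pos_and_pos_or_neg_and_neg_of_mul_pos h with ⟨ha, hb⟩ | ⟨ha, hb⟩
  · have := le_abs_self (b * u ^ 2 + a * v ^ 2)
    constructor <;> nlinarith
  · have := neg_le_abs (b * u ^ 2 + a * v ^ 2)
    constructor <;> nlinarith

lemma finite_square {a b c : ℤ} (hc : c ≠ 0) (h : -(a * b) = c * c) : (Diff a b).Finite := by
  have hb : b ≠ 0 := by
    rintro rfl
    have : c * c = 0 := by linarith
    exact hc (mul_self_eq_zero.mp this)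
  set M := b * (a * b * (a + b) + 4) with hM
  have hM0 : M ≠ 0 := mul_ne_zero hb (N_ne a b)
  apply finite_box |M| |M|
  rintro ⟨u, v⟩ hp
  rw [mem_diff] at hp
  obtain ⟨h0, -, -⟩ := hp
  simp only at h0 ⊢
  have h1 : (b * u - c * v) * (b * u + c * v) = M := by
    rw [hM]
    linear_combination b * h0 + v ^ 2 * h
  have d1 : b * u - c * v ∣ M := ⟨_, h1.symm⟩
  have d2 : b * u + c * v ∣ M := ⟨b * u - c * v, by linarith [mul_comm (b * u - c * v) (b * u + c * v)]⟩
  have e1 : |b * u - c * v| ≤ |M| := Int.le_of_dvd (abs_pos.mpr hM0) ((abs_dvd_abs _ _).mpr d1)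
  have e2 : |b * u + c * v| ≤ |M| := Int.le_of_dvd (abs_pos.mpr hM0) ((abs_dvd_abs _ _).mpr d2)
  obtain ⟨f1, f2⟩ := abs_le.mp e1
  obtain ⟨f3, f4⟩ := abs_le.mp e2
  have g1 : |b * u| ≤ |M| := abs_le.mpr ⟨by linarith, by linarith⟩
  have g2 : |c * v| ≤ |M| := abs_le.mpr ⟨by linarith, by linarith⟩
  rw [abs_mul] at g1 g2
  have hb1 : 1 ≤ |b| := Int.one_le_abs hb
  have hc1 : 1 ≤ |c| := Int.one_le_abs hc
  constructor
  · nlinarith [abs_nonneg u]
  · nlinarith [abs_nonneg v]

lemma infinite_of {a b T U : ℤ} (h : T ^ 2 + a * b * U ^ 2 = 1) (hT : 1 < T)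
    (hne : (Diff a b).Nonempty) : (Diff a b).Infinite := by
  intro hfin
  obtain ⟨p, hp, hmax⟩ := Set.exists_max_image (Diff a b) (fun p => |p.1|) hfin hne
  have h1 : |(pell a b T U h p).1| ≤ |p.1| := hmax _ (pell_mem h hp)
  have h2 : |((pell a b T U h).symm p).1| ≤ |p.1| := hmax _ (pell_symm_mem h hp)
  rw [mem_diff] at hp
  obtain ⟨h0, -, -⟩ := hp
  obtain ⟨u, v⟩ := p
  have h1' : |T * u + a * U * v| ≤ |u| := h1
  have h2' : |T * u - a * U * v| ≤ |u| := h2
  simp only at h0
  have haU : a * U ≠ 0 := by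
    intro h3
    have : T ^ 2 = 1 := by
      have : a * b * U ^ 2 = b * U * (a * U) := by ring
      rw [this, h3] at h
      linarith
    nlinarith
  have h3 := sq_le_sq.mpr h1'
  have h4 := sq_le_sq.mpr h2'
  have h5 : T ^ 2 * u ^ 2 + (a * U) ^ 2 * v ^ 2 ≤ u ^ 2 := by nlinarith
  have h6 : 0 ≤ (a * U) ^ 2 * v ^ 2 := by positivity
  have hu : u = 0 := by
    by_contra hu
    have h7 : 0 < u ^ 2 := by positivity
    have h8 : 4 ≤ T ^ 2 := by nlinarith
    have h9 : 4 * u ^ 2 ≤ T ^ 2 * u ^ 2 := mul_le_mul_of_nonneg_right h8 h7.le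
    linarith
  have hv : v = 0 := by
    by_contra hv
    have h7 : 0 < (a * U) ^ 2 * v ^ 2 := by positivity
    rw [hu] at h5
    linarith
  rw [hu, hv] at h0
  exact N_ne a b (by linarith)

lemma exists_pell {a b : ℤ} (h : a * b < 0) (hs : ¬ IsSquare (-(a * b))) :
    ∃ T U : ℤ, 1 < T ∧ T ^ 2 + a * b * U ^ 2 = 1 := by
  obtain ⟨x, y, h1, h2⟩ := Pell.exists_of_not_isSquare (by linarith : 0 < -(a * b)) hs
  refine ⟨|x|, y, ?_, ?_⟩
  · by_contra hc
    push Not at hc
    have hx : x ^ 2 ≤ 1 := by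
      rw [← sq_abs]
      have := abs_nonneg x
      nlinarith
    have hy : 0 < y ^ 2 := by positivity
    nlinarith
  · rw [sq_abs]
    linarith

end Pool.Agent.N938.Mo
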